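import Pool.Agent.Helper93_FL.RDefs

/-!
# Common facts for the modules R3 and R4 of the forcing library
-/

open MeasureTheory Set

open scoped ENNReal

namespace Pool.Agent.FL.H10

/-! ### Probability measures -/

theorem isProb_unifM {n : ℕ} (hn : 0 < n) : IsProbabilityMeasure (unifM n) := by
  constructor
  have h : (Measure.count : Measure (Fin n)) Set.univ = (n : ENNReal) := by
    rw [Measure.count_univ]
    simp
  rw [unifM, Measure.smul_apply, h, smul_eq_mul]
  exact ENNReal.inv_mul_cancel (by exact_mod_cast hn.ne') (ENNReal.natCast_ne_top n)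

instance (m : ℕ) : IsProbabilityMeasure (unifM (bs m)) := isProb_unifM (bs_pos m)

theorem unifM_apply (n : ℕ) (A : Set (Fin n)) [DecidablePred (· ∈ A)] :
    unifM n A = (n : ENNReal)⁻¹ * ((Finset.univ.filter (· ∈ A)).card : ENNReal) := by
  rw [unifM, Measure.smul_apply, smul_eq_mul]
  congr 1
  have hA : A = ((Finset.univ.filter (· ∈ A) : Finset (Fin n)) : Set (Fin n)) := by
    ext x
    simp
  conv_lhs => rw [hA]
  rw [Measure.count_apply_finset]

theorem lintegral_unifM (n : ℕ) (f : Fin n → ENNReal) :
    ∫⁻ a, f a ∂(unifM n) = (n : ENNReal)⁻¹ * ∑ a, f a := by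
  rw [unifM, lintegral_smul_measure, lintegral_count, tsum_fintype, smul_eq_mul]

/-! ### Resampling one coordinate -/

theorem map_update {X : ℕ → Type} [∀ i, MeasurableSpace (X i)] (μ : (i : ℕ) → Measure (X i))
    [∀ i, IsProbabilityMeasure (μ i)] (j : ℕ) :
    ((Measure.infinitePi μ).prod (μ j)).map (fun z => Function.update z.1 j z.2) =
      Measure.infinitePi μ := by
  have hm : Measurable (fun z : ((i : ℕ) → X i) × X j => Function.update z.1 j z.2) := by
    rw [measurable_pi_iff]
    intro i
    by_cases h : i = j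
    · subst h
      simpa using measurable_snd
    · simp only [Function.update_of_ne h]
      exact (measurable_pi_apply i).comp measurable_fst
  apply Measure.eq_infinitePi
  intro s t ht
  rw [Measure.map_apply hm (MeasurableSet.pi s.countable_toSet (fun i _ => ht i))]
  by_cases hj : j ∈ s
  · have : (fun z : ((i : ℕ) → X i) × X j => Function.update z.1 j z.2) ⁻¹' (Set.pi s t) =
        (Set.pi (s.erase j) t) ×ˢ (t j) := by
      ext z
      simp only [Set.mem_preimage, Set.mem_pi, Finset.mem_coe, Set.mem_prod, Finset.mem_erase]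
      constructor
      · intro h
        refine ⟨fun i hi => ?_, ?_⟩
        · have := h i hi.2
          rwa [Function.update_of_ne hi.1] at this
        · have := h j hj
          rwa [Function.update_self] at this
      · rintro ⟨h1, h2⟩ i hi
        by_cases hij : i = j
        · subst hij
          rwa [Function.update_self]
        · rw [Function.update_of_ne hij]
          exact h1 i ⟨hij, hi⟩
    rw [this, Measure.prod_prod, Measure.infinitePi_pi μ (fun i _ => ht i), mul_comm,
      Finset.mul_prod_erase s (fun i => μ i (t i)) hj]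
  · have : (fun z : ((i : ℕ) → X i) × X j => Function.update z.1 j z.2) ⁻¹' (Set.pi s t) =
        (Set.pi s t) ×ˢ Set.univ := by
      ext z
      simp only [Set.mem_preimage, Set.mem_pi, Finset.mem_coe, Set.mem_prod, Set.mem_univ,
        and_true]
      refine forall₂_congr fun i hi => ?_
      have : i ≠ j := fun h => hj (h ▸ hi)
      rw [Function.update_of_ne this]
    rw [this, Measure.prod_prod, Measure.infinitePi_pi μ (fun i _ => ht i), measure_univ, mul_one]

theorem measurable_update' {X : ℕ → Type} [∀ i, MeasurableSpace (X i)] (j : ℕ) :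
    Measurable (fun z : ((i : ℕ) → X i) × X j => Function.update z.1 j z.2) := by
  rw [measurable_pi_iff]
  intro i
  by_cases h : i = j
  · subst h
    simpa using measurable_snd
  · simp only [Function.update_of_ne h]
    exact (measurable_pi_apply i).comp measurable_fst

theorem lintegral_update {X : ℕ → Type} [∀ i, MeasurableSpace (X i)] (μ : (i : ℕ) → Measure (X i))
    [∀ i, IsProbabilityMeasure (μ i)] (j : ℕ) (f : ((i : ℕ) → X i) → ENNReal) (hf : Measurable f) :
    ∫⁻ x, f x ∂(Measure.infinitePi μ) =
      ∫⁻ x, ∫⁻ a, f (Function.update x j a) ∂(μ j) ∂(Measure.infinitePi μ) := by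
  conv_lhs => rw [← map_update μ j]
  rw [lintegral_map hf (measurable_update' j), lintegral_prod]
  exact (hf.comp (measurable_update' j)).aemeasurable

/-- Independence of a coordinate. -/
theorem lintegral_indep {X : ℕ → Type} [∀ i, MeasurableSpace (X i)] (μ : (i : ℕ) → Measure (X i))
    [∀ i, IsProbabilityMeasure (μ i)] (j : ℕ) (f : ((i : ℕ) → X i) → ENNReal) (hf : Measurable f)
    (hfj : ∀ x a, f (Function.update x j a) = f x) (h : X j → ENNReal) (hh : Measurable h) :
    ∫⁻ x, f x * h (x j) ∂(Measure.infinitePi μ) =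
      (∫⁻ x, f x ∂(Measure.infinitePi μ)) * ∫⁻ a, h a ∂(μ j) := by
  rw [lintegral_update μ j (fun x => f x * h (x j)) (hf.mul (hh.comp (measurable_pi_apply j)))]
  simp only [hfj, Function.update_self]
  have : ∀ x, ∫⁻ a, f x * h a ∂(μ j) = f x * ∫⁻ a, h a ∂(μ j) := fun x =>
    lintegral_const_mul _ hh
  simp only [this]
  rw [lintegral_mul_const _ hf]

/-! ### Number of good successors -/

open Classical in
/-- Number of elements of `A` that the shift by `x` sends into the half set. -/
noncomputable def Nx (m : ℕ) (A : Finset ℕ) (x : ℕ) : ℕ := (A.filter (fun a => inJ m (x + a))).card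

theorem aliveAt_iff (T : Set Node) (x : Dg) (σ : Node) :
    aliveAt T x σ ↔ (suc T σ).card ≤ 3 * Nx σ.length (suc T σ) (x σ.length).val := by
  unfold aliveAt Nx
  exact Iff.rfl

open Classical in
/-- Chebyshev: the fraction of the digits for which the node is not alive. -/
theorem bad_fraction (hR1 : R1Stmt) (m : ℕ) (A : Finset ℕ) (hA : ∀ a ∈ A, a < sz m)
    (hne : 0 < A.card) :
    (((Finset.univ : Finset (Fin (bs m))).filter
      (fun x => ¬ A.card ≤ 3 * Nx m A x.val)).card : ℝ) ≤
      (bs m : ℝ) * (18 / A.card + 72 * (1 / 2) ^ m) := by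
  obtain ⟨-, -, -, h⟩ := hR1
  obtain ⟨-, -, h3⟩ := h m A hA
  have hc : (0 : ℝ) < A.card := by exact_mod_cast hne
  -- change to a sum over the range
  have e1 : (((Finset.univ : Finset (Fin (bs m))).filter
      (fun x => ¬ A.card ≤ 3 * Nx m A x.val)).card : ℝ) =
      (((Finset.range (bs m)).filter (fun x => ¬ A.card ≤ 3 * Nx m A x)).card : ℝ) := by
    congr 1
    apply Finset.card_bij (fun (x : Fin (bs m)) _ => x.val)
    · intro x hx
      simp only [Finset.mem_filter, Finset.mem_univ, true_and] at hx
      simp only [Finset.mem_filter, Finset.mem_range]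
      exact ⟨x.isLt, hx⟩
    · intro x _ y _ hxy
      exact Fin.ext hxy
    · intro x hx
      simp only [Finset.mem_filter, Finset.mem_range] at hx
      exact ⟨⟨x, hx.1⟩, by simpa using hx.2, rfl⟩
  rw [e1]
  have h4 : (((Finset.range (bs m)).filter (fun x => ¬ A.card ≤ 3 * Nx m A x)).card : ℝ) *
      ((A.card : ℝ) ^ 2 / 36) ≤ ∑ x ∈ Finset.range (bs m),
      (((A.filter (fun a => inJ m (x + a))).card : ℝ) - (A.card : ℝ) / 2) ^ 2 := by
    calc _ = ∑ x ∈ (Finset.range (bs m)).filter (fun x => ¬ A.card ≤ 3 * Nx m A x),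
          ((A.card : ℝ) ^ 2 / 36) := by rw [Finset.sum_const, nsmul_eq_mul]
      _ ≤ ∑ x ∈ (Finset.range (bs m)).filter (fun x => ¬ A.card ≤ 3 * Nx m A x),
          (((A.filter (fun a => inJ m (x + a))).card : ℝ) - (A.card : ℝ) / 2) ^ 2 := by
          refine Finset.sum_le_sum fun x hx => ?_
          simp only [Finset.mem_filter, Finset.mem_range, not_le] at hx
          have h5 : (3 * ((A.filter (fun a => inJ m (x + a))).card : ℝ)) < A.card := by
            have := hx.2
            unfold Nx at this
            exact_mod_cast this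
          have h6 : (A.card : ℝ) / 6 ≤ (A.card : ℝ) / 2 -
              ((A.filter (fun a => inJ m (x + a))).card : ℝ) := by linarith
          have h7 : ((A.card : ℝ) / 6) ^ 2 ≤ ((A.card : ℝ) / 2 -
              ((A.filter (fun a => inJ m (x + a))).card : ℝ)) ^ 2 :=
            pow_le_pow_left₀ (by positivity) h6 2
          nlinarith
      _ ≤ _ := by
          apply Finset.sum_le_sum_of_subset_of_nonneg (Finset.filter_subset _ _)
          intro i _ _
          positivity
  have h8 := h4.trans h3
  have h9 : (0 : ℝ) < (A.card : ℝ) ^ 2 / 36 := by positivity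
  rw [← le_div_iff₀ h9] at h8
  refine h8.trans (le_of_eq ?_)
  field_simp
  ring

/-- The probability that a node is not alive. -/
theorem prob_bad (hR1 : R1Stmt) (T : Set Node) (σ : Node) (hne : 0 < (suc T σ).card) :
    unifM (bs σ.length) {a | ¬ (suc T σ).card ≤ 3 * Nx σ.length (suc T σ) a.val} ≤
      ENNReal.ofReal (18 / (suc T σ).card + 72 * (1 / 2) ^ σ.length) := by
  classical
  have h := bad_fraction hR1 σ.length (suc T σ) (fun a ha => (mem_suc.1 ha).1) hne
  rw [unifM_apply]
  have hb : (0 : ℝ) < bs σ.length := by exact_mod_cast bs_pos _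
  have h2 : ((((Finset.univ : Finset (Fin (bs σ.length))).filter
      (fun x => x ∈ {a | ¬ (suc T σ).card ≤ 3 * Nx σ.length (suc T σ) a.val})).card : ENNReal)) ≤
      ENNReal.ofReal ((bs σ.length : ℝ) * (18 / (suc T σ).card + 72 * (1 / 2) ^ σ.length)) := by
    rw [← ENNReal.ofReal_natCast]
    exact ENNReal.ofReal_le_ofReal (by simpa using h)
  calc _ ≤ ((bs σ.length : ℕ) : ENNReal)⁻¹ *
        ENNReal.ofReal ((bs σ.length : ℝ) * (18 / (suc T σ).card + 72 * (1 / 2) ^ σ.length)) := by
        gcongr
    _ = _ := by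
        rw [ENNReal.ofReal_mul hb.le, ENNReal.ofReal_natCast, ← mul_assoc,
          ENNReal.inv_mul_cancel (by exact_mod_cast (bs_pos _).ne') (ENNReal.natCast_ne_top _),
          one_mul]

/-! ### Dependence of the random node on the digits -/

theorem mem_hatT_congr (T : Set Node) (τ : Node) {x x' : Dg} (σ : Node)
    (h : ∀ i < σ.length, x i = x' i) : σ ∈ hatT T τ x ↔ σ ∈ hatT T τ x' := by
  unfold hatT
  simp only [Set.mem_ofPred_eq]
  refine and_congr_right fun _ => ?_
  refine forall_congr' fun m => forall_congr' fun _ => forall_congr' fun hm => ?_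
  have h1 : (σ.take m).length = m := by
    rw [List.length_take]; omega
  have h2 : aliveAt T x (σ.take m) ↔ aliveAt T x' (σ.take m) := by
    rw [aliveAt_iff, aliveAt_iff]
    have : x (σ.take m).length = x' (σ.take m).length := h _ (by rw [h1]; exact hm)
    rw [this]
  rw [h2, h m hm]

theorem suc_hatT_congr (T : Set Node) (τ : Node) {x x' : Dg} (σ : Node)
    (h : ∀ i ≤ σ.length, x i = x' i) : suc (hatT T τ x) σ = suc (hatT T τ x') σ := by
  ext a
  rw [mem_suc, mem_suc, mem_hatT_congr T τ (σ ++ [a]) (x := x) (x' := x')]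
  intro i hi
  exact h i (by simp at hi; omega)

theorem phiN_hatT_congr (T : Set Node) (τ : Node) {x x' : Dg} (w : Rd) (m : ℕ)
    (h : ∀ i < m, x i = x' i) : phiN (hatT T τ x) w m = phiN (hatT T τ x') w m ∧
      (phiN (hatT T τ x) w m).length = m := by
  induction m with
  | zero => simp [phiN]
  | succ m ih =>
    obtain ⟨h1, h2⟩ := ih (fun i hi => h i (by omega))
    have h3 : suc (hatT T τ x) (phiN (hatT T τ x) w m) =
        suc (hatT T τ x') (phiN (hatT T τ x) w m) := by
      apply suc_hatT_congr
      intro i hi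
      exact h i (by omega)
    refine ⟨?_, ?_⟩
    · simp only [phiN]
      rw [← h1, h3]
    · simp [phiN, h2]

theorem pre_phi_hatT_congr (h1 : PhiStmt) (hR2 : R2Stmt) {T : Set Node} (hT : Good T) {τ : Node}
    (hτ : τ ∈ T) {x x' : Dg} (w : Rd) (m : ℕ) (h : ∀ i < m, x i = x' i) :
    pre (phi (hatT T τ x) w) m = pre (phi (hatT T τ x') w) m := by
  rw [h1.1 _ (hR2.1 T τ x hT hτ).1, h1.1 _ (hR2.1 T τ x' hT hτ).1]
  exact (phiN_hatT_congr T τ w m h).1

/-! ### Measurability -/

theorem measurable_branch (h1 : PhiStmt) (hR2 : R2Stmt) (T : Set Node) (τ : Node) :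
    Measurable (fun z : Dg × Rd => phi (hatT T τ z.1) z.2) := by
  have h2 : Measurable (fun z : Set Node × Dg => hatT z.1 τ z.2) := hR2.2.2.1 τ
  have h3 : Measurable (fun x : Dg => hatT T τ x) :=
    Measurable.comp (g := fun z : Set Node × Dg => hatT z.1 τ z.2) (f := fun x : Dg => (T, x)) h2
      (measurable_const.prodMk measurable_id)
  have h4 : Measurable (fun z : Dg × Rd => (hatT T τ z.1, z.2)) :=
    (Measurable.comp (g := fun x : Dg => hatT T τ x) (f := fun z : Dg × Rd => z.1) h3
      measurable_fst).prodMk measurable_snd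
  have h5 := h1.2.2.2.1
  exact Measurable.comp (g := fun x : Set Node × Rd => phi x.1 x.2)
    (f := fun z : Dg × Rd => (hatT T τ z.1, z.2)) h5 h4

theorem measurableSet_aliveAt (T : Set Node) (σ : Node) : MeasurableSet {x : Dg | aliveAt T x σ} := by
  have : {x : Dg | aliveAt T x σ} = (fun x : Dg => x σ.length) ⁻¹'
      {a | (suc T σ).card ≤ 3 * Nx σ.length (suc T σ) a.val} := by
    ext x
    simp only [Set.mem_ofPred_eq, Set.mem_preimage]
    exact aliveAt_iff T x σ
  rw [this]
  exact measurable_pi_apply _ (Set.toFinite _).measurableSet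

theorem measurableSet_aliveNode (h1 : PhiStmt) (hR2 : R2Stmt) (T : Set Node) (τ : Node) (m : ℕ) :
    MeasurableSet {z : Dg × Rd | aliveAt T z.1 (pre (phi (hatT T τ z.1) z.2) m)} := by
  have : {z : Dg × Rd | aliveAt T z.1 (pre (phi (hatT T τ z.1) z.2) m)} =
      ⋃ σ : Node, {z | pre (phi (hatT T τ z.1) z.2) m = σ} ∩ {z | aliveAt T z.1 σ} := by
    ext z
    simp
  rw [this]
  exact MeasurableSet.iUnion fun σ =>
    ((measurable_branch h1 hR2 T τ) (measurableSet_pre_eq m σ)).inter
      (measurable_fst (measurableSet_aliveAt T σ))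

instance : IsProbabilityMeasure mL := by unfold mL; infer_instance

end Pool.Agent.FL.H10
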