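import Pool.Agent.Helper10_FL.R3b

/-!
# Module R3 of the forcing library: absolute continuity
-/

open MeasureTheory Set Filter Topology

open scoped ENNReal

namespace Pool.Agent.FL.H10

theorem measurableSet_cylS (M : ℕ) (S : Set (Node × Node)) :
    MeasurableSet {p : Br × Dg | (pre p.1 M, pre p.2 M) ∈ S} := by
  have : {p : Br × Dg | (pre p.1 M, pre p.2 M) ∈ S} =
      ⋃ σ : S, {p | pre p.1 M = σ.1.1} ∩ {p | pre p.2 M = σ.1.2} := by
    ext p
    simp only [Set.mem_ofPred_eq, Set.mem_iUnion, Set.mem_inter_iff]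
    constructor
    · intro h
      exact ⟨⟨_, h⟩, rfl, rfl⟩
    · rintro ⟨⟨⟨a, b⟩, hs⟩, h1, h2⟩
      simp only at h1 h2
      rw [h1, h2]
      exact hs
  rw [this]
  exact MeasurableSet.iUnion fun σ =>
    (measurable_fst (measurableSet_pre_eq M _)).inter (measurable_snd (measurableSet_pre_eq M _))

theorem Lam_cylS (T : Set Node) (M : ℕ) (S : Set (Node × Node)) :
    Lam T {p : Br × Dg | (pre p.1 M, pre p.2 M) ∈ S} =
      ∑' σ : S, Lam T {p : Br × Dg | pre p.1 M = σ.1.1 ∧ pre p.2 M = σ.1.2} := by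
  have : {p : Br × Dg | (pre p.1 M, pre p.2 M) ∈ S} =
      ⋃ σ : S, {p | pre p.1 M = σ.1.1 ∧ pre p.2 M = σ.1.2} := by
    ext p
    simp only [Set.mem_ofPred_eq, Set.mem_iUnion]
    constructor
    · intro h
      exact ⟨⟨_, h⟩, rfl, rfl⟩
    · rintro ⟨⟨⟨a, b⟩, hs⟩, h1, h2⟩
      simp only at h1 h2
      rw [h1, h2]
      exact hs
  rw [this, measure_iUnion]
  · intro σ σ' hne
    rw [Function.onFun, Set.disjoint_left]
    rintro p ⟨h1, h2⟩ ⟨h3, h4⟩
    exact hne (Subtype.ext (Prod.ext (h1.symm.trans h3) (h2.symm.trans h4)))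
  · intro σ
    exact (measurable_fst (measurableSet_pre_eq M _)).inter
      (measurable_snd (measurableSet_pre_eq M _))

theorem claim2 (h1 : PhiStmt) (hP : ProdStmt) (hR1 : R1Stmt) (hR2 : R2Stmt) {T : Set Node}
    (hT : Good T) {τ : Node} (hτ : τ ∈ T) (M : ℕ) (hM : τ.length ≤ M) (R : ℝ≥0∞)
    (S : Set (Node × Node)) :
    (mL.prod mU) {z | FM T τ.length M z.1 (phi (hatT T τ z.1) z.2) ≤ R ∧
      (∀ i, τ.length ≤ i → i < M → aliveAt T z.1 (pre (phi (hatT T τ z.1) z.2) i)) ∧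
      (pre (phi (hatT T τ z.1) z.2) M,
        pre (cD τ.length z.1 (phi (hatT T τ z.1) z.2)) M) ∈ S} ≤
    CC T τ * R * Lam T {p | (pre p.1 M, pre p.2 M) ∈ S} := by
  rw [Lam_cylS, ← ENNReal.tsum_mul_left]
  set E : S → Set (Dg × Rd) := fun σ =>
    {z | FM T τ.length M z.1 (phi (hatT T τ z.1) z.2) ≤ R ∧
      (∀ i, τ.length ≤ i → i < M → aliveAt T z.1 (pre (phi (hatT T τ z.1) z.2) i)) ∧
      pre (phi (hatT T τ z.1) z.2) M = σ.1.1 ∧
        pre (cD τ.length z.1 (phi (hatT T τ z.1) z.2)) M = σ.1.2} with hE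
  have hsub : {z : Dg × Rd | FM T τ.length M z.1 (phi (hatT T τ z.1) z.2) ≤ R ∧
      (∀ i, τ.length ≤ i → i < M → aliveAt T z.1 (pre (phi (hatT T τ z.1) z.2) i)) ∧
      (pre (phi (hatT T τ z.1) z.2) M,
        pre (cD τ.length z.1 (phi (hatT T τ z.1) z.2)) M) ∈ S} ⊆ ⋃ σ, E σ := by
    intro z hz
    rw [Set.mem_iUnion]
    exact ⟨⟨_, hz.2.2⟩, hz.1, hz.2.1, rfl, rfl⟩
  refine (measure_mono hsub).trans ((measure_iUnion_le _).trans ?_)
  refine ENNReal.tsum_le_tsum fun σ => ?_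
  by_cases hne : ∃ z, z ∈ E σ
  · obtain ⟨z0, hz0⟩ := hne
    have h2 := single h1 hP hR1 hR2 hT hτ M hM z0.1 z0.2 hz0.2.1
    rw [hz0.2.2.1, hz0.2.2.2] at h2
    refine le_trans (measure_mono ?_) (h2.trans ?_)
    · intro z hz
      exact ⟨hz.2.2.1, hz.2.2.2, hz.2.1⟩
    · gcongr
      exact hz0.1
  · have h2 : E σ = ∅ := by
      ext z
      simp only [Set.mem_empty_iff_false, iff_false]
      exact fun h => hne ⟨z, h⟩
    rw [h2, measure_empty]
    exact bot_le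

/-- The cylinder sets of level `M` inside an open set. -/
def SM (U : Set (Br × Dg)) (M : ℕ) : Set (Node × Node) :=
  {σ | ∀ p' : Br × Dg, pre p'.1 M = σ.1 → pre p'.2 M = σ.2 → p' ∈ U}

theorem SM_mono (U : Set (Br × Dg)) :
    Monotone (fun M => {p : Br × Dg | (pre p.1 M, pre p.2 M) ∈ SM U M}) := by
  intro M M' h p hp p' h1 h2
  apply hp p'
  · rw [← take_pre p'.1 h, h1, take_pre p.1 h]
  · rw [← take_pre p'.2 h, h2, take_pre p.2 h]

theorem pre_pi_of_finset {s : ℕ → ℕ} (I : Finset ℕ) (t t' : (m : ℕ) → Fin (s m)) (M : ℕ)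
    (hM : ∀ i ∈ I, i < M) (h : pre t' M = pre t M) : ∀ i ∈ I, t' i = t i := by
  intro i hi
  exact pre_eq_pre_iff.1 h i (hM i hi)

theorem SM_iUnion (U : Set (Br × Dg)) (hU : IsOpen U) :
    (⋃ M, {p : Br × Dg | (pre p.1 M, pre p.2 M) ∈ SM U M}) = U := by
  apply Set.Subset.antisymm
  · intro p hp
    rw [Set.mem_iUnion] at hp
    obtain ⟨M, hM⟩ := hp
    exact hM p rfl rfl
  · intro p hp
    rw [isOpen_prod_iff] at hU
    obtain ⟨u, v, hu, hv, hpu, hpv, huv⟩ := hU p.1 p.2 hp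
    rw [isOpen_pi_iff] at hu hv
    obtain ⟨I, a, ha, hIa⟩ := hu p.1 hpu
    obtain ⟨J, b, hb, hJb⟩ := hv p.2 hpv
    rw [Set.mem_iUnion]
    refine ⟨(I ∪ J).sup id + 1, ?_⟩
    intro p' h1 h2
    have hlt : ∀ i ∈ I ∪ J, i < (I ∪ J).sup id + 1 := fun i hi =>
      Nat.lt_succ_of_le (Finset.le_sup (f := id) hi)
    apply huv
    refine ⟨hIa ?_, hJb ?_⟩
    · intro i hi
      rw [pre_pi_of_finset I p.1 p'.1 _ (fun i hi => hlt i (Finset.mem_union_left _ hi)) h1 i hi]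
      exact (ha i hi).2
    · intro i hi
      rw [pre_pi_of_finset J p.2 p'.2 _ (fun i hi => hlt i (Finset.mem_union_right _ hi)) h2 i hi]
      exact (hb i hi).2

/-- The constant of the second moment bound. -/
noncomputable def KK : ℝ≥0∞ := ENNReal.ofReal (Real.exp (∑' i, dd i))

theorem open_bound (h1 : PhiStmt) (hP : ProdStmt) (hR1 : R1Stmt) (hR2 : R2Stmt) {T : Set Node}
    (hT : Good T) {τ : Node} (hτ : τ ∈ T) (hN : NormGE T τ.length 2) (R : ℝ≥0∞) (hR0 : R ≠ 0)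
    (hRtop : R ≠ ∞) (U : Set (Br × Dg)) (hU : IsOpen U) :
    (mL.prod mU) {z | alive T τ.length z.1 (phi (hatT T τ z.1) z.2) ∧
      (phi (hatT T τ z.1) z.2, cD τ.length z.1 (phi (hatT T τ z.1) z.2)) ∈ U} ≤
    KK / R + CC T τ * R * Lam T U := by
  have := hP.1
  set W : ℕ → Set (Dg × Rd) := fun M => {z | alive T τ.length z.1 (phi (hatT T τ z.1) z.2) ∧
      (phi (hatT T τ z.1) z.2, cD τ.length z.1 (phi (hatT T τ z.1) z.2)) ∈
        {p : Br × Dg | (pre p.1 M, pre p.2 M) ∈ SM U M}} with hW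
  have hWmono : Monotone W := by
    intro M M' h z hz
    exact ⟨hz.1, SM_mono U h hz.2⟩
  have hWU : {z : Dg × Rd | alive T τ.length z.1 (phi (hatT T τ z.1) z.2) ∧
      (phi (hatT T τ z.1) z.2, cD τ.length z.1 (phi (hatT T τ z.1) z.2)) ∈ U} = ⋃ M, W M := by
    ext z
    simp only [Set.mem_iUnion, hW, Set.mem_ofPred_eq]
    constructor
    · rintro ⟨h2, h3⟩
      rw [← SM_iUnion U hU, Set.mem_iUnion] at h3
      obtain ⟨M, hM⟩ := h3
      exact ⟨M, h2, hM⟩
    · rintro ⟨M, h2, h3⟩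
      exact ⟨h2, h3 _ rfl rfl⟩
  rw [hWU, hWmono.measure_iUnion]
  refine iSup_le fun M0 => ?_
  set M := max M0 τ.length with hMdef
  have hM : τ.length ≤ M := le_max_right _ _
  refine (measure_mono (hWmono (le_max_left M0 τ.length))).trans ?_
  have hsub : W M ⊆ {z | R ≤ FM T τ.length M z.1 (phi (hatT T τ z.1) z.2)} ∪
      {z | FM T τ.length M z.1 (phi (hatT T τ z.1) z.2) ≤ R ∧
      (∀ i, τ.length ≤ i → i < M → aliveAt T z.1 (pre (phi (hatT T τ z.1) z.2) i)) ∧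
      (pre (phi (hatT T τ z.1) z.2) M,
        pre (cD τ.length z.1 (phi (hatT T τ z.1) z.2)) M) ∈ SM U M} := by
    intro z hz
    rcases le_total R (FM T τ.length M z.1 (phi (hatT T τ z.1) z.2)) with h2 | h2
    · exact Or.inl h2
    · exact Or.inr ⟨h2, fun i hi _ => hz.1 i hi, hz.2⟩
  refine (measure_mono hsub).trans ((measure_union_le _ _).trans ?_)
  gcongr
  · refine (meas_ge_le_lintegral_div (measurable_FM h1 hR2 T τ τ.length M).aemeasurable
      hR0 hRtop).trans ?_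
    gcongr
    refine (claim1 h1 hP hR1 hR2 hT hτ hN M hM).trans ?_
    unfold KK
    apply ENNReal.ofReal_le_ofReal
    apply Real.exp_le_exp.2
    exact summable_dd.sum_le_tsum _ (fun i _ => dd_nonneg i)
  · refine (claim2 h1 hP hR1 hR2 hT hτ M hM R (SM U M)).trans ?_
    gcongr
    intro p hp
    exact hp p rfl rfl

theorem r3 (h1 : PhiStmt) (hP : ProdStmt) (hR1 : R1Stmt) (hR2 : R2Stmt) : R3Stmt := by
  intro T hT τ hτ hN N hNm hnull
  have := hP.1
  have := isProb_mJ hR1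
  have := Measure.isProbabilityMeasure_map (μ := mU) (measurable_phi h1 T).aemeasurable
  have hprob := isProb_Lam h1 hP hR1 T
  have hLam : Lam T N = 0 := by
    unfold Lam
    rw [Measure.prod_apply hNm]
    have : ∀ t : Br, mJ (Prod.mk t ⁻¹' N) = 0 := hnull
    simp [this]
  set EN : Set (Dg × Rd) := {z | alive T τ.length z.1 (phi (hatT T τ z.1) z.2) ∧
      (phi (hatT T τ z.1) z.2, cD τ.length z.1 (phi (hatT T τ z.1) z.2)) ∈ N} with hEN
  have hmb := measurable_branch h1 hR2 T τ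
  have hmEN : MeasurableSet EN := by
    have h2 : Measurable (fun z : Dg × Rd => ((T, z.1), phi (hatT T τ z.1) z.2)) :=
      (measurable_const.prodMk measurable_fst).prodMk hmb
    have h3 : MeasurableSet {z : Dg × Rd | alive T τ.length z.1 (phi (hatT T τ z.1) z.2)} :=
      h2 (hR2.2.2.2.1 τ.length)
    have h4 : Measurable (fun z : Dg × Rd => (z.1, phi (hatT T τ z.1) z.2)) :=
      measurable_fst.prodMk hmb
    have h5 : Measurable (fun z : Dg × Rd => cD τ.length z.1 (phi (hatT T τ z.1) z.2)) :=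
      Measurable.comp (g := fun z : Dg × Br => cD τ.length z.1 z.2)
        (f := fun z : Dg × Rd => (z.1, phi (hatT T τ z.1) z.2)) (hR2.2.2.2.2 τ.length) h4
    exact h3.inter ((hmb.prodMk h5) hNm)
  have hR : ∀ R : ℝ≥0∞, R ≠ 0 → R ≠ ∞ → (mL.prod mU) EN ≤ KK / R := by
    intro R hR0 hRtop
    have hfin : CC T τ * R ≠ ∞ := ENNReal.mul_ne_top (CC_ne_top T τ) hRtop
    have h2 : ∀ k : ℕ, (mL.prod mU) EN ≤ KK / R + CC T τ * R * ((k : ℝ≥0∞))⁻¹ := by
      intro k
      have h3 : Lam T N < ((k : ℝ≥0∞))⁻¹ := by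
        rw [hLam]
        exact ENNReal.inv_pos.2 (ENNReal.natCast_ne_top k)
      obtain ⟨U, hNU, hUo, hU⟩ := Set.exists_isOpen_lt_of_lt N _ h3
      refine le_trans (measure_mono ?_) ((open_bound h1 hP hR1 hR2 hT hτ hN R hR0 hRtop U hUo).trans
        ?_)
      · intro z hz
        exact ⟨hz.1, hNU hz.2⟩
      · gcongr
    have h3 : Tendsto (fun k : ℕ => KK / R + CC T τ * R * ((k : ℝ≥0∞))⁻¹) atTop
        (𝓝 (KK / R + CC T τ * R * 0)) := by
      apply Tendsto.const_add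
      exact ENNReal.Tendsto.const_mul ENNReal.tendsto_inv_nat_nhds_zero (Or.inr hfin)
    rw [mul_zero, add_zero] at h3
    exact ge_of_tendsto' h3 h2
  have hzero : (mL.prod mU) EN = 0 := by
    have h2 : ∀ k : ℕ, (mL.prod mU) EN ≤ KK * ((k + 1 : ℕ) : ℝ≥0∞)⁻¹ := by
      intro k
      have h3 := hR ((k + 1 : ℕ) : ℝ≥0∞) (by exact_mod_cast Nat.succ_ne_zero k)
        (ENNReal.natCast_ne_top _)
      rwa [ENNReal.div_eq_inv_mul, mul_comm] at h3
    have h3 : Tendsto (fun k : ℕ => KK * ((k + 1 : ℕ) : ℝ≥0∞)⁻¹) atTop (𝓝 (KK * 0)) := by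
      apply ENNReal.Tendsto.const_mul
      · exact (tendsto_add_atTop_iff_nat (f := fun k : ℕ => ((k : ℝ≥0∞))⁻¹) 1).2
          ENNReal.tendsto_inv_nat_nhds_zero
      · right
        unfold KK
        exact ENNReal.ofReal_ne_top
    rw [mul_zero] at h3
    exact le_antisymm (ge_of_tendsto' h3 h2) bot_le
  have h2 := (Measure.measure_prod_null hmEN).1 hzero
  filter_upwards [h2] with x hx
  exact hx

end Pool.Agent.FL.H10
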