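import Pool.Agent.Helper10_FL.R4

/-!
# Module R3 of the forcing library, part a: the second moment bound
-/

open MeasureTheory Set Filter Topology

open scoped ENNReal

namespace Pool.Agent.FL.H10

/-- The error at one level. -/
noncomputable def dd (m : ℕ) : ℝ := 14 * (1 / 2) ^ m + 3 / ((m : ℝ) + 2) ^ 2

theorem dd_nonneg (m : ℕ) : 0 ≤ dd m := by unfold dd; positivity

theorem summable_dd : Summable dd := by
  unfold dd
  apply Summable.add
  · exact (summable_geometric_of_lt_one (by norm_num) (by norm_num)).mul_left 14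
  · have h : Summable (fun m : ℕ => 1 / ((m : ℝ) + 2) ^ 2) := by
      have h2 : Summable (fun m : ℕ => 1 / ((m : ℝ)) ^ 2) :=
        Real.summable_one_div_nat_pow.2 (by norm_num)
      have h3 := (summable_nat_add_iff (f := fun m : ℕ => 1 / ((m : ℝ)) ^ 2) 2).2 h2
      refine h3.congr fun m => ?_
      push_cast
      rfl
    refine (h.mul_left 3).congr fun m => ?_
    ring

open Classical in
theorem step_real (hR1 : R1Stmt) (m : ℕ) (A : Finset ℕ) (hA : ∀ a ∈ A, a < sz m)
    (hne : 0 < A.card) :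
    ∑ x ∈ Finset.range (bs m), (if A.card ≤ 3 * Nx m A x then (A.card : ℝ) / (2 * Nx m A x)
      else 0) ≤ (bs m : ℝ) * (1 + 14 * (1 / 2) ^ m + 3 / A.card) := by
  obtain ⟨-, -, -, h⟩ := hR1
  obtain ⟨-, h2, h3⟩ := h m A hA
  have hc : (0 : ℝ) < A.card := by exact_mod_cast hne
  obtain ⟨a, ha⟩ : ∃ a : ℝ, a = (A.card : ℝ) := ⟨_, rfl⟩
  rw [← ha] at hc h2 h3 ⊢
  have ha2 : 0 < a / 2 := by linarith
  have hNx : ∀ x, ((A.filter (fun a => inJ m (x + a))).card : ℝ) = (Nx m A x : ℝ) := fun x => rfl
  simp only [hNx] at h2 h3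
  have key : ∀ x, (if A.card ≤ 3 * Nx m A x then a / (2 * (Nx m A x : ℝ)) else 0) ≤
      1 - ((Nx m A x : ℝ) - a / 2) / (a / 2) + 3 / 2 * (((Nx m A x : ℝ) - a / 2) / (a / 2)) ^ 2 := by
    intro x
    obtain ⟨N, hN⟩ : ∃ N : ℝ, N = (Nx m A x : ℝ) := ⟨_, rfl⟩
    rw [← hN]
    obtain ⟨z, hz⟩ : ∃ z : ℝ, z = (N - a / 2) / (a / 2) := ⟨_, rfl⟩
    rw [← hz]
    have hNz : N = a / 2 * (1 + z) := by rw [hz]; field_simp; ring
    split_ifs with hg
    · have h5 : a ≤ 3 * N := by rw [ha, hN]; exact_mod_cast hg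
      have hz1 : -1 / 3 ≤ z := by
        rw [hz, le_div_iff₀ ha2]
        linarith
      have hz2 : 0 < 1 + z := by linarith
      rw [hNz, div_le_iff₀ (mul_pos two_pos (mul_pos ha2 hz2))]
      have h6 : 1 ≤ (1 - z + 3 / 2 * z ^ 2) * (1 + z) := by
        have : (1 - z + 3 / 2 * z ^ 2) * (1 + z) = 1 + z ^ 2 * (1 / 2 + 3 / 2 * z) := by ring
        rw [this]
        have : 0 ≤ z ^ 2 * (1 / 2 + 3 / 2 * z) := by
          apply mul_nonneg (sq_nonneg _)
          linarith
        linarith
      calc a = a * 1 := by ring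
        _ ≤ a * ((1 - z + 3 / 2 * z ^ 2) * (1 + z)) := by gcongr
        _ = _ := by ring
    · nlinarith [sq_nonneg (z - 1 / 3), sq_nonneg z]
  have h4 : ∑ x ∈ Finset.range (bs m),
      (1 - ((Nx m A x : ℝ) - a / 2) / (a / 2) +
        3 / 2 * (((Nx m A x : ℝ) - a / 2) / (a / 2)) ^ 2) =
      (bs m : ℝ) - (∑ x ∈ Finset.range (bs m), (Nx m A x : ℝ) - bs m * (a / 2)) / (a / 2) +
        3 / 2 * ((∑ x ∈ Finset.range (bs m), ((Nx m A x : ℝ) - a / 2) ^ 2) / (a / 2) ^ 2) := by
    rw [Finset.sum_add_distrib, Finset.sum_sub_distrib, ← Finset.mul_sum]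
    congr 1
    · congr 1
      · simp
      · rw [← Finset.sum_div, Finset.sum_sub_distrib]
        simp
    · congr 1
      rw [Finset.sum_div]
      refine Finset.sum_congr rfl fun x _ => ?_
      rw [div_pow]
  refine (Finset.sum_le_sum fun x _ => key x).trans ?_
  rw [h4]
  have hb : (0 : ℝ) ≤ bs m := by positivity
  have h5 : -((bs m : ℝ) * (2 * (1 / 2) ^ m)) ≤
      (∑ x ∈ Finset.range (bs m), (Nx m A x : ℝ) - bs m * (a / 2)) / (a / 2) := by
    rw [le_div_iff₀ ha2]
    nlinarith
  have h6 : (∑ x ∈ Finset.range (bs m), ((Nx m A x : ℝ) - a / 2) ^ 2) / (a / 2) ^ 2 ≤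
      (bs m : ℝ) * (2 / a + 8 * (1 / 2) ^ m) := by
    rw [div_le_iff₀ (pow_pos ha2 2)]
    refine h3.trans (le_of_eq ?_)
    field_simp
    ring
  have h7 : (bs m : ℝ) * (1 + 14 * (1 / 2) ^ m + 3 / a) =
      (bs m : ℝ) + (bs m : ℝ) * (2 * (1 / 2) ^ m) +
        3 / 2 * ((bs m : ℝ) * (2 / a + 8 * (1 / 2) ^ m)) := by
    field_simp
    ring
  rw [h7]
  linarith

open Classical in
/-- The factor of the density at a node. -/
noncomputable def gi (T : Set Node) (x : Dg) (σ : Node) : ℝ≥0∞ :=
  if aliveAt T x σ then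
    ((suc T σ).card : ℝ≥0∞) / (2 * (Nx σ.length (suc T σ) (x σ.length).val : ℝ≥0∞)) else 0

/-- The density up to level `M`. -/
noncomputable def FM (T : Set Node) (n M : ℕ) (x : Dg) (t : Br) : ℝ≥0∞ :=
  ∏ i ∈ Finset.Ico n M, gi T x (pre t i)

open Classical in
theorem step_ennreal (hR1 : R1Stmt) (T : Set Node) (m : ℕ) (σ : Node) (hσ : σ.length = m)
    (hcard : (m + 2) ^ 2 ≤ (suc T σ).card) (x : Dg) :
    ∫⁻ a, gi T (Function.update x m a) σ ∂(unifM (bs m)) ≤ ENNReal.ofReal (1 + dd m) := by
  subst hσ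
  have h0 : 0 < (suc T σ).card := lt_of_lt_of_le (by positivity) hcard
  have h1 := step_real hR1 σ.length (suc T σ) (fun a ha => (mem_suc.1 ha).1) h0
  rw [lintegral_unifM]
  have h2 : ∀ a : Fin (bs σ.length), gi T (Function.update x σ.length a) σ =
      ENNReal.ofReal (if (suc T σ).card ≤ 3 * Nx σ.length (suc T σ) a.val then
        ((suc T σ).card : ℝ) / (2 * Nx σ.length (suc T σ) a.val) else 0) := by
    intro a
    unfold gi
    rw [Function.update_self]
    have h3 : aliveAt T (Function.update x σ.length a) σ ↔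
        (suc T σ).card ≤ 3 * Nx σ.length (suc T σ) a.val := by
      rw [aliveAt_iff, Function.update_self]
    by_cases h4 : (suc T σ).card ≤ 3 * Nx σ.length (suc T σ) a.val
    · rw [if_pos (h3.2 h4), if_pos h4]
      have h5 : 0 < Nx σ.length (suc T σ) a.val := by omega
      have h6 : (0 : ℝ) < Nx σ.length (suc T σ) a.val := by exact_mod_cast h5
      rw [ENNReal.ofReal_div_of_pos (by positivity), ENNReal.ofReal_mul (by norm_num),
        ENNReal.ofReal_natCast, ENNReal.ofReal_natCast]
      norm_num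
    · rw [if_neg (fun h => h4 (h3.1 h)), if_neg h4, ENNReal.ofReal_zero]
  simp only [h2]
  rw [← ENNReal.ofReal_sum_of_nonneg (fun a _ => by split_ifs <;> positivity),
    Fin.sum_univ_eq_sum_range (fun a => if (suc T σ).card ≤ 3 * Nx σ.length (suc T σ) a then
        ((suc T σ).card : ℝ) / (2 * Nx σ.length (suc T σ) a) else 0) (bs σ.length)]
  have hb : (0 : ℝ) < bs σ.length := by exact_mod_cast bs_pos _
  calc _ ≤ ((bs σ.length : ℕ) : ℝ≥0∞)⁻¹ *
        ENNReal.ofReal ((bs σ.length : ℝ) * (1 + 14 * (1 / 2) ^ σ.length + 3 / (suc T σ).card)) := by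
        gcongr
    _ = ENNReal.ofReal (1 + 14 * (1 / 2) ^ σ.length + 3 / (suc T σ).card) := by
        rw [ENNReal.ofReal_mul hb.le, ENNReal.ofReal_natCast, ← mul_assoc,
          ENNReal.inv_mul_cancel (by exact_mod_cast (bs_pos _).ne') (ENNReal.natCast_ne_top _),
          one_mul]
    _ ≤ _ := by
        apply ENNReal.ofReal_le_ofReal
        unfold dd
        have h3 : ((σ.length : ℝ) + 2) ^ 2 ≤ ((suc T σ).card : ℝ) := by exact_mod_cast hcard
        have h4 : 3 / ((suc T σ).card : ℝ) ≤ 3 / ((σ.length : ℝ) + 2) ^ 2 :=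
          div_le_div_of_nonneg_left (by norm_num) (by positivity) h3
        linarith

theorem aliveAt_congr (T : Set Node) {x x' : Dg} (σ : Node) (h : x σ.length = x' σ.length) :
    aliveAt T x σ ↔ aliveAt T x' σ := by
  rw [aliveAt_iff, aliveAt_iff, h]

theorem gi_congr (T : Set Node) {x x' : Dg} (σ : Node) (h : x σ.length = x' σ.length) :
    gi T x σ = gi T x' σ := by
  unfold gi
  have h1 := aliveAt_congr T σ h
  by_cases h2 : aliveAt T x' σ
  · rw [if_pos (h1.2 h2), if_pos h2, h]
  · rw [if_neg (fun h3 => h2 (h1.1 h3)), if_neg h2]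

theorem measurable_gi (T : Set Node) (σ : Node) : Measurable (fun x : Dg => gi T x σ) := by
  have : (fun x : Dg => gi T x σ) =
      (fun a : Fin (bs σ.length) => gi T (Function.update (fun m => ⟨0, bs_pos m⟩) σ.length a) σ) ∘
        (fun x : Dg => x σ.length) := by
    funext x
    simp only [Function.comp]
    apply gi_congr
    rw [Function.update_self]
  rw [this]
  exact (measurable_of_countable _).comp (measurable_pi_apply _)

/-- Functions of a random node. -/
theorem measurable_node {β : Type*} [MeasurableSpace β] {Ω : Type*} [MeasurableSpace Ω]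
    (i : ℕ) (g : Node → Ω → β) (hg : ∀ σ, Measurable (g σ)) (t : Ω → Br) (ht : Measurable t) :
    Measurable (fun z => g (pre (t z) i) z) := by
  intro S hS
  have : (fun z => g (pre (t z) i) z) ⁻¹' S =
      ⋃ σ : Node, {z | pre (t z) i = σ} ∩ (g σ) ⁻¹' S := by
    ext z
    simp
  rw [this]
  exact MeasurableSet.iUnion fun σ => (ht (measurableSet_pre_eq i σ)).inter (hg σ hS)

theorem measurable_FM (h1 : PhiStmt) (hR2 : R2Stmt) (T : Set Node) (τ : Node) (n M : ℕ) :
    Measurable (fun z : Dg × Rd => FM T n M z.1 (phi (hatT T τ z.1) z.2)) := by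
  unfold FM
  apply Finset.measurable_prod
  intro i _
  have h2 : ∀ σ : Node, Measurable (fun z : Dg × Rd => gi T z.1 σ) := fun σ =>
    Measurable.comp (g := fun x : Dg => gi T x σ) (f := fun z : Dg × Rd => z.1)
      (measurable_gi T σ) measurable_fst
  have h3 := measurable_node (Ω := Dg × Rd) (β := ℝ≥0∞) i (fun σ z => gi T z.1 σ) h2
    (fun z : Dg × Rd => phi (hatT T τ z.1) z.2) (measurable_branch h1 hR2 T τ)
  exact h3

theorem FM_update (h1 : PhiStmt) (hR2 : R2Stmt) {T : Set Node} (hT : Good T) {τ : Node}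
    (hτ : τ ∈ T) (n M : ℕ) (x : Dg) (w : Rd) (a : Fin (bs M)) :
    FM T n M (Function.update x M a) (phi (hatT T τ (Function.update x M a)) w) =
      FM T n M x (phi (hatT T τ x) w) := by
  unfold FM
  refine Finset.prod_congr rfl fun i hi => ?_
  rw [Finset.mem_Ico] at hi
  have h2 : pre (phi (hatT T τ (Function.update x M a)) w) i = pre (phi (hatT T τ x) w) i := by
    apply pre_phi_hatT_congr h1 hR2 hT hτ
    intro j hj
    rw [Function.update_of_ne (by omega)]
  rw [h2]
  apply gi_congr
  rw [length_pre, Function.update_of_ne (by omega)]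

theorem claim1 (h1 : PhiStmt) (hP : ProdStmt) (hR1 : R1Stmt) (hR2 : R2Stmt) {T : Set Node}
    (hT : Good T) {τ : Node} (hτ : τ ∈ T) (hN : NormGE T τ.length 2) (M : ℕ)
    (hM : τ.length ≤ M) :
    ∫⁻ z, FM T τ.length M z.1 (phi (hatT T τ z.1) z.2) ∂(mL.prod mU) ≤
      ENNReal.ofReal (Real.exp (∑ i ∈ Finset.range M, dd i)) := by
  have := hP.1
  induction M, hM using Nat.le_induction with
  | base =>
    simp only [FM, Finset.Ico_self, Finset.prod_empty, lintegral_const, measure_univ, mul_one]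
    rw [← ENNReal.ofReal_one]
    apply ENNReal.ofReal_le_ofReal
    exact Real.one_le_exp (Finset.sum_nonneg fun i _ => dd_nonneg i)
  | succ M hM ih =>
    have hw : ∀ w : Rd, ∫⁻ x, FM T τ.length (M + 1) x (phi (hatT T τ x) w) ∂mL ≤
        ∫⁻ x, FM T τ.length M x (phi (hatT T τ x) w) * ENNReal.ofReal (1 + dd M) ∂mL := by
      intro w
      have hmeas : Measurable (fun x : Dg => FM T τ.length (M + 1) x (phi (hatT T τ x) w)) :=
        Measurable.comp (g := fun z : Dg × Rd => FM T τ.length (M + 1) z.1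
          (phi (hatT T τ z.1) z.2)) (f := fun x : Dg => (x, w))
          (measurable_FM h1 hR2 T τ τ.length (M + 1)) measurable_prodMk_right
      unfold mL
      rw [lintegral_update (fun m => unifM (bs m)) M _ hmeas]
      refine lintegral_mono fun x => ?_
      have h2 : ∀ a : Fin (bs M), FM T τ.length (M + 1) (Function.update x M a)
          (phi (hatT T τ (Function.update x M a)) w) =
          FM T τ.length M x (phi (hatT T τ x) w) *
            gi T (Function.update x M a) (pre (phi (hatT T τ x) w) M) := by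
        intro a
        have h3 := FM_update h1 hR2 hT hτ τ.length M x w a
        unfold FM at h3 ⊢
        rw [Finset.prod_Ico_succ_top hM, h3]
        congr 2
        apply pre_phi_hatT_congr h1 hR2 hT hτ
        intro j hj
        rw [Function.update_of_ne (by omega)]
      simp only [h2]
      have h4 : Measurable (fun a : Fin (bs M) =>
          gi T (Function.update x M a) (pre (phi (hatT T τ x) w) M)) := measurable_of_countable _
      rw [lintegral_const_mul _ h4]
      gcongr
      apply step_ennreal hR1 T M _ (length_pre _ _)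
      have h5 := hN _ (branch_mem h1 hR2 hT hτ x w M) (by rw [length_pre]; exact hM)
      rwa [length_pre] at h5
    rw [lintegral_prod_symm _ (measurable_FM h1 hR2 T τ τ.length (M + 1)).aemeasurable]
    rw [lintegral_prod_symm _ (measurable_FM h1 hR2 T τ τ.length M).aemeasurable] at ih
    calc ∫⁻ w, ∫⁻ x, FM T τ.length (M + 1) x (phi (hatT T τ x) w) ∂mL ∂mU
        ≤ ∫⁻ w, ∫⁻ x, FM T τ.length M x (phi (hatT T τ x) w) * ENNReal.ofReal (1 + dd M) ∂mL ∂mU :=
          lintegral_mono hw
      _ = (∫⁻ w, ∫⁻ x, FM T τ.length M x (phi (hatT T τ x) w) ∂mL ∂mU) *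
          ENNReal.ofReal (1 + dd M) := by
          have hm : ∀ w : Rd, Measurable (fun x : Dg => FM T τ.length M x (phi (hatT T τ x) w)) :=
            fun w => Measurable.comp (g := fun z : Dg × Rd => FM T τ.length M z.1
              (phi (hatT T τ z.1) z.2)) (f := fun x : Dg => (x, w))
              (measurable_FM h1 hR2 T τ τ.length M) measurable_prodMk_right
          simp only [fun w => lintegral_mul_const (μ := mL) (ENNReal.ofReal (1 + dd M)) (hm w)]
          rw [lintegral_mul_const]
          exact (measurable_FM h1 hR2 T τ τ.length M).lintegral_prod_left'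
      _ ≤ ENNReal.ofReal (Real.exp (∑ i ∈ Finset.range M, dd i)) *
          ENNReal.ofReal (Real.exp (dd M)) := by
          gcongr
          rw [add_comm]
          exact Real.add_one_le_exp _
      _ = _ := by
          rw [← ENNReal.ofReal_mul (Real.exp_pos _).le, ← Real.exp_add, Finset.sum_range_succ]

end Pool.Agent.FL.H10
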