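import Pool.Agent.Helper10_FL.R3a

/-!
# Module R3 of the forcing library, part b: the density on cylinders
-/

open MeasureTheory Set Filter Topology

open scoped ENNReal

namespace Pool.Agent.FL.H10

/-- Number of elements of the half set. -/
noncomputable def jj (m : ℕ) : ℝ≥0∞ := Measure.count {x : Fin (bs m) | inJ m x.val}

theorem two_jj (hR1 : R1Stmt) (m : ℕ) : 2 * jj m = (bs m : ℝ≥0∞) := by
  classical
  obtain ⟨-, h, -⟩ := hR1
  have h1 := h m
  unfold jj
  have h2 : {x : Fin (bs m) | inJ m x.val} =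
      ((Finset.univ.filter (fun x : Fin (bs m) => inJ m x.val) : Finset (Fin (bs m))) :
        Set (Fin (bs m))) := by
    ext x; simp
  rw [h2, Measure.count_apply_finset]
  have h3 : (Finset.univ.filter (fun x : Fin (bs m) => inJ m x.val)).card =
      ((Finset.range (bs m)).filter (inJ m)).card := by
    apply Finset.card_bij (fun (x : Fin (bs m)) _ => x.val)
    · intro x hx
      simp only [Finset.mem_filter, Finset.mem_univ, true_and] at hx
      simp only [Finset.mem_filter, Finset.mem_range]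
      exact ⟨x.isLt, hx⟩
    · intro x _ y _ hxy
      exact Fin.ext hxy
    · intro x hx
      simp only [Finset.mem_filter, Finset.mem_range] at hx
      exact ⟨⟨x, hx.1⟩, by simpa using hx.2, rfl⟩
  rw [h3]
  exact_mod_cast h1

theorem jj_ne_top (m : ℕ) : jj m ≠ ∞ := by
  unfold jj
  exact (Measure.count_apply_lt_top.2 (Set.toFinite _)).ne

theorem jj_ne_zero (hR1 : R1Stmt) (m : ℕ) : jj m ≠ 0 := by
  intro h
  have h2 := two_jj hR1 m
  rw [h, mul_zero] at h2
  have := bs_pos m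
  have h3 : (bs m : ℝ≥0∞) ≠ 0 := by exact_mod_cast this.ne'
  exact h3 h2.symm

theorem isProb_unifJ (hR1 : R1Stmt) (m : ℕ) : IsProbabilityMeasure (unifJ m) := by
  constructor
  unfold unifJ
  rw [Measure.smul_apply, Measure.restrict_apply_univ, smul_eq_mul]
  exact ENNReal.inv_mul_cancel (jj_ne_zero hR1 m) (jj_ne_top m)

theorem unifJ_singleton (m : ℕ) (a : Fin (bs m)) (ha : inJ m a.val) :
    unifJ m {a} = (jj m)⁻¹ := by
  unfold unifJ jj
  rw [Measure.smul_apply, smul_eq_mul, Measure.restrict_apply (measurableSet_singleton a)]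
  have : ({a} ∩ {x : Fin (bs m) | inJ m x.val} : Set (Fin (bs m))) = {a} := by
    ext x
    simp only [Set.mem_inter_iff, Set.mem_singleton_iff, Set.mem_ofPred_eq]
    constructor
    · exact fun h => h.1
    · rintro rfl
      exact ⟨rfl, ha⟩
  rw [this, Measure.count_singleton, mul_one]

theorem mJ_cyl (hR1 : R1Stmt) (M : ℕ) (c0 : Dg) (h : ∀ i < M, inJ i (c0 i).val) :
    mJ {c | pre c M = pre c0 M} = ∏ i ∈ Finset.range M, (jj i)⁻¹ := by
  have := fun m => isProb_unifJ hR1 m
  have h1 : {c : Dg | pre c M = pre c0 M} =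
      Set.pi (Finset.range M : Finset ℕ) (fun i => ({c0 i} : Set (Fin (bs i)))) := by
    ext c
    simp only [Set.mem_ofPred_eq, pre_eq_pre_iff, Set.mem_pi, Finset.coe_range, Set.mem_Iio,
      Set.mem_singleton_iff]
  rw [h1]
  unfold mJ
  rw [Measure.infinitePi_pi _ (fun i _ => measurableSet_singleton _)]
  refine Finset.prod_congr rfl fun i hi => ?_
  exact unifJ_singleton i _ (h i (Finset.mem_range.1 hi))

theorem mL_cyl (S : Finset ℕ) (x0 : Dg) :
    mL {x | ∀ i ∈ S, x i = x0 i} = ∏ i ∈ S, (bs i : ℝ≥0∞)⁻¹ := by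
  have h1 : {x : Dg | ∀ i ∈ S, x i = x0 i} =
      Set.pi (S : Set ℕ) (fun i => ({x0 i} : Set (Fin (bs i)))) := by
    ext c
    simp
  rw [h1]
  unfold mL
  rw [Measure.infinitePi_pi _ (fun i _ => measurableSet_singleton _)]
  refine Finset.prod_congr rfl fun i _ => ?_
  unfold unifM
  rw [Measure.smul_apply, smul_eq_mul, Measure.count_singleton, mul_one]

theorem mem_sub_append {T : Set Node} {τ σ : Node} {a : ℕ} (h : σ ∈ sub T τ)
    (hl : τ.length ≤ σ.length) (ha : σ ++ [a] ∈ T) : σ ++ [a] ∈ sub T τ := by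
  refine ⟨ha, Or.inr ?_⟩
  rcases h.2 with h2 | h2
  · have : σ = τ := h2.eq_of_length_le hl
    subst this
    exact List.prefix_append _ _
  · exact h2.trans (List.prefix_append _ _)

theorem card_suc_hatT {T : Set Node} {τ : Node} {x : Dg} {σ : Node}
    (hσ : σ ∈ hatT T τ x) (hl : τ.length ≤ σ.length) :
    Nx σ.length (suc T σ) (x σ.length).val ≤ (suc (hatT T τ x) σ).card := by
  classical
  unfold Nx
  apply Finset.card_le_card
  intro a ha
  rw [Finset.mem_filter, mem_suc] at ha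
  rw [mem_suc]
  refine ⟨ha.1.1, mem_sub_append hσ.1 hl ha.1.2, ?_⟩
  intro m hm hlt hal
  have h1 : m ≤ σ.length := by simp at hlt; omega
  rcases Nat.lt_or_ge m σ.length with h2 | h2
  · rw [List.getElem_append_left h2]
    apply hσ.2 m hm h2
    rwa [List.take_append_of_le_length h1] at hal
  · have h3 : m = σ.length := by omega
    subst h3
    simpa using ha.2

theorem inJ_of_alive {T : Set Node} {τ : Node} {x : Dg} {t : Br} (ht : t ∈ body (hatT T τ x))
    {i : ℕ} (hi : τ.length ≤ i) (hal : aliveAt T x (pre t i)) :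
    inJ i ((x i).val + (t i).val) := by
  have h := (ht (i + 1)).2 i hi (by simp)
  rw [take_pre t (by omega), getElem_pre] at h
  exact h hal

/-- The reference measure. -/
noncomputable def Lam (T : Set Node) : Measure (Br × Dg) := (mU.map (phi T)).prod mJ

theorem measurable_phi (h1 : PhiStmt) (T : Set Node) : Measurable (phi T) := by
  have h5 := h1.2.2.2.1
  exact Measurable.comp (g := fun x : Set Node × Rd => phi x.1 x.2)
    (f := fun w : Rd => (T, w)) h5 (measurable_const.prodMk measurable_id)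

theorem isProb_mJ (hR1 : R1Stmt) : IsProbabilityMeasure mJ := by
  have := fun m => isProb_unifJ hR1 m
  unfold mJ
  infer_instance

theorem isProb_Lam (h1 : PhiStmt) (hP : ProdStmt) (hR1 : R1Stmt) (T : Set Node) :
    IsProbabilityMeasure (Lam T) := by
  have := hP.1
  have := isProb_mJ hR1
  have := Measure.isProbabilityMeasure_map (μ := mU) (measurable_phi h1 T).aemeasurable
  unfold Lam
  infer_instance

theorem Lam_cyl (h1 : PhiStmt) (hP : ProdStmt) (hR1 : R1Stmt) {T : Set Node} (hT : Good T)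
    (M : ℕ) (t0 : Br) (ht0 : pre t0 M ∈ T) (c0 : Dg) (hc0 : ∀ i < M, inJ i (c0 i).val) :
    Lam T {p | pre p.1 M = pre t0 M ∧ pre p.2 M = pre c0 M} =
      (∏ i ∈ Finset.range M, ((suc T (pre t0 i)).card : ℝ≥0∞)⁻¹) *
        ∏ i ∈ Finset.range M, (jj i)⁻¹ := by
  have := hP.1
  have := isProb_mJ hR1
  have h2 : {p : Br × Dg | pre p.1 M = pre t0 M ∧ pre p.2 M = pre c0 M} =
      {t | pre t M = pre t0 M} ×ˢ {c | pre c M = pre c0 M} := by
    ext p; simp
  rw [h2]
  unfold Lam
  rw [Measure.prod_prod, mJ_cyl hR1 M c0 hc0,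
    Measure.map_apply (measurable_phi h1 T) (measurableSet_pre_eq M _)]
  congr 1
  have h3 := h1.2.2.2.2 T hT (pre t0 M) ht0
  rw [length_pre] at h3
  have h4 : phi T ⁻¹' {t | pre t M = pre t0 M} = {w | pre (phi T w) M = pre t0 M} := rfl
  rw [h4, h3]
  refine Finset.prod_congr rfl fun i hi => ?_
  rw [take_pre t0 (Finset.mem_range.1 hi).le]

/-- The constant of the comparison. -/
noncomputable def CC (T : Set Node) (τ : Node) : ℝ≥0∞ :=
  ∏ i ∈ Finset.range τ.length, ((suc T (τ.take i)).card : ℝ≥0∞) * jj i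

theorem CC_ne_top (T : Set Node) (τ : Node) : CC T τ ≠ ∞ := by
  unfold CC
  exact ENNReal.prod_ne_top fun i _ => ENNReal.mul_ne_top (ENNReal.natCast_ne_top _) (jj_ne_top i)

/-- Upper bound for the probability of a cylinder. -/
theorem q_bound (h1 : PhiStmt) (hP : ProdStmt) (hR1 : R1Stmt) (hR2 : R2Stmt) {T : Set Node}
    (hT : Good T) {τ : Node} (hτ : τ ∈ T) (M : ℕ) (x0 : Dg) (w0 : Rd)
    (hal : ∀ i, τ.length ≤ i → i < M → aliveAt T x0 (pre (phi (hatT T τ x0) w0) i)) :
    (mL.prod mU) {z | pre (phi (hatT T τ z.1) z.2) M = pre (phi (hatT T τ x0) w0) M ∧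
      pre (cD τ.length z.1 (phi (hatT T τ z.1) z.2)) M =
        pre (cD τ.length x0 (phi (hatT T τ x0) w0)) M ∧
      ∀ i, τ.length ≤ i → i < M → aliveAt T z.1 (pre (phi (hatT T τ z.1) z.2) i)} ≤
    (∏ i ∈ Finset.Ico τ.length M, (bs i : ℝ≥0∞)⁻¹) *
      ∏ i ∈ Finset.Ico τ.length M,
        (Nx i (suc T (pre (phi (hatT T τ x0) w0) i)) (x0 i).val : ℝ≥0∞)⁻¹ := by
  have := hP.1
  set t0 := phi (hatT T τ x0) w0 with ht0
  set n := τ.length with hn
  have hb : ∀ x w, phi (hatT T τ x) w ∈ body (hatT T τ x) := fun x w =>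
    h1.2.1 _ (hR2.1 T τ x hT hτ).1 w
  set E : Set (Dg × Rd) := {z | pre (phi (hatT T τ z.1) z.2) M = pre t0 M ∧
      pre (cD n z.1 (phi (hatT T τ z.1) z.2)) M = pre (cD n x0 t0) M ∧
      ∀ i, n ≤ i → i < M → aliveAt T z.1 (pre (phi (hatT T τ z.1) z.2) i)} with hE
  -- the digits of `x` are determined
  have hsub : E ⊆ {z | (∀ i ∈ Finset.Ico n M, z.1 i = x0 i) ∧
      pre (phi (hatT T τ z.1) z.2) M = pre t0 M} := by
    intro z hz
    refine ⟨fun i hi => ?_, hz.1⟩
    rw [Finset.mem_Ico] at hi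
    have h2 := inJ_of_alive (hb z.1 z.2) hi.1 (hz.2.2 i hi.1 hi.2)
    have h3 : inJ i ((x0 i).val + (t0 i).val) :=
      inJ_of_alive (hb x0 w0) hi.1 (hal i hi.1 hi.2)
    have h4 := pre_eq_pre_iff.1 hz.1 i hi.2
    have h5 := pre_eq_pre_iff.1 hz.2.1 i hi.2
    have h6 := congrArg Fin.val h5
    simp only [cD, if_neg (not_lt.2 hi.1)] at h6
    rw [Nat.mod_eq_of_lt h2.1, Nat.mod_eq_of_lt h3.1] at h6
    have h7 := congrArg Fin.val h4
    apply Fin.ext
    omega
  have hmeasA : MeasurableSet {x : Dg | ∀ i ∈ Finset.Ico n M, x i = x0 i} := by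
    have : {x : Dg | ∀ i ∈ Finset.Ico n M, x i = x0 i} =
        ⋂ i ∈ Finset.Ico n M, {x : Dg | x i = x0 i} := by
      ext x; simp
    rw [this]
    exact MeasurableSet.biInter (Finset.countable_toSet _) fun i _ =>
      measurableSet_eq_fun (measurable_pi_apply i) measurable_const
  have hmeas : MeasurableSet {z : Dg × Rd | (∀ i ∈ Finset.Ico n M, z.1 i = x0 i) ∧
      pre (phi (hatT T τ z.1) z.2) M = pre t0 M} :=
    (measurable_fst hmeasA).inter ((measurable_branch h1 hR2 T τ) (measurableSet_pre_eq M _))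
  refine (measure_mono hsub).trans ?_
  rw [Measure.prod_apply hmeas]
  set P : ℝ≥0∞ := ∏ i ∈ Finset.Ico n M, (Nx i (suc T (pre t0 i)) (x0 i).val : ℝ≥0∞)⁻¹ with hPdef
  have key : ∀ x : Dg, mU (Prod.mk x ⁻¹' {z : Dg × Rd | (∀ i ∈ Finset.Ico n M, z.1 i = x0 i) ∧
      pre (phi (hatT T τ z.1) z.2) M = pre t0 M}) ≤
      ({x : Dg | ∀ i ∈ Finset.Ico n M, x i = x0 i}.indicator (fun _ => P)) x := by
    intro x
    by_cases hx : ∀ i ∈ Finset.Ico n M, x i = x0 i
    · rw [Set.indicator_of_mem (by exact hx)]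
      have h2 : (Prod.mk x ⁻¹' {z : Dg × Rd | (∀ i ∈ Finset.Ico n M, z.1 i = x0 i) ∧
          pre (phi (hatT T τ z.1) z.2) M = pre t0 M}) ⊆
          {w | pre (phi (hatT T τ x) w) M = pre t0 M} := fun w hw => hw.2
      refine (measure_mono h2).trans ?_
      by_cases hemp : ∃ w, pre (phi (hatT T τ x) w) M = pre t0 M
      · obtain ⟨w, hw⟩ := hemp
        have h3 : pre t0 M ∈ hatT T τ x := by rw [← hw]; exact hb x w M
        have hG := (hR2.1 T τ x hT hτ).1
        have h4 := h1.2.2.2.2 (hatT T τ x) hG (pre t0 M) h3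
        rw [length_pre] at h4
        rw [h4, hPdef]
        have h5 : ∏ i ∈ Finset.range M, ((suc (hatT T τ x) ((pre t0 M).take i)).card : ℝ≥0∞)⁻¹ ≤
            ∏ i ∈ Finset.range M, (if n ≤ i then
              (Nx i (suc T (pre t0 i)) (x0 i).val : ℝ≥0∞)⁻¹ else 1) := by
          refine Finset.prod_le_prod' fun i hi => ?_
          have hiM := Finset.mem_range.1 hi
          rw [take_pre t0 hiM.le]
          have h6 : pre t0 i ∈ hatT T τ x := hG.mem_of_isPrefix (pre_isPrefix t0 hiM.le) h3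
          split_ifs with h7
          · rw [ENNReal.inv_le_inv]
            have h8 := card_suc_hatT h6 (by rw [length_pre]; exact h7)
            rw [length_pre] at h8
            have h9 := hx i (Finset.mem_Ico.2 ⟨h7, hiM⟩)
            rw [h9] at h8
            exact_mod_cast h8
          · rw [ENNReal.inv_le_one]
            have := Finset.card_pos.2 (hG.ext _ h6)
            exact_mod_cast this
        refine h5.trans (le_of_eq ?_)
        rw [← Finset.prod_filter]
        congr 1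
        ext i
        simp only [Finset.mem_filter, Finset.mem_range, Finset.mem_Ico]
        omega
      · have h3 : {w | pre (phi (hatT T τ x) w) M = pre t0 M} = ∅ := by
          ext w
          simp only [Set.mem_ofPred_eq, Set.mem_empty_iff_false, iff_false]
          exact fun h => hemp ⟨w, h⟩
        rw [h3, measure_empty]
        exact bot_le
    · have h2 : (Prod.mk x ⁻¹' {z : Dg × Rd | (∀ i ∈ Finset.Ico n M, z.1 i = x0 i) ∧
          pre (phi (hatT T τ z.1) z.2) M = pre t0 M}) = ∅ := by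
        ext w
        simp only [Set.mem_preimage, Set.mem_ofPred_eq, Set.mem_empty_iff_false, iff_false]
        exact fun h => hx h.1
      rw [h2, measure_empty]
      exact bot_le
  refine (lintegral_mono key).trans ?_
  rw [lintegral_indicator_const hmeasA, mL_cyl, mul_comm]

theorem single (h1 : PhiStmt) (hP : ProdStmt) (hR1 : R1Stmt) (hR2 : R2Stmt) {T : Set Node}
    (hT : Good T) {τ : Node} (hτ : τ ∈ T) (M : ℕ) (hM : τ.length ≤ M) (x0 : Dg) (w0 : Rd)
    (hal : ∀ i, τ.length ≤ i → i < M → aliveAt T x0 (pre (phi (hatT T τ x0) w0) i)) :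
    (mL.prod mU) {z | pre (phi (hatT T τ z.1) z.2) M = pre (phi (hatT T τ x0) w0) M ∧
      pre (cD τ.length z.1 (phi (hatT T τ z.1) z.2)) M =
        pre (cD τ.length x0 (phi (hatT T τ x0) w0)) M ∧
      ∀ i, τ.length ≤ i → i < M → aliveAt T z.1 (pre (phi (hatT T τ z.1) z.2) i)} ≤
    CC T τ * FM T τ.length M x0 (phi (hatT T τ x0) w0) *
      Lam T {p | pre p.1 M = pre (phi (hatT T τ x0) w0) M ∧
        pre p.2 M = pre (cD τ.length x0 (phi (hatT T τ x0) w0)) M} := by
  refine (q_bound h1 hP hR1 hR2 hT hτ M x0 w0 hal).trans (le_of_eq ?_)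
  set t0 := phi (hatT T τ x0) w0 with ht0
  have hG := (hR2.1 T τ x0 hT hτ).1
  have hb : t0 ∈ body (hatT T τ x0) := h1.2.1 _ hG w0
  have hmem : ∀ i, pre t0 i ∈ T := fun i => branch_mem h1 hR2 hT hτ x0 w0 i
  have hinJ : ∀ i < M, inJ i (cD τ.length x0 t0 i).val := by
    intro i hi
    unfold cD
    by_cases h2 : i < τ.length
    · simp only [if_pos h2]
      have h3 := hR1.1 i
      rw [Nat.mod_eq_of_lt h3.1]
      exact h3
    · simp only [if_neg h2]
      have h3 := inJ_of_alive hb (not_lt.1 h2) (hal i (not_lt.1 h2) hi)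
      rw [Nat.mod_eq_of_lt h3.1]
      exact h3
  rw [Lam_cyl h1 hP hR1 hT M t0 (hmem M) _ hinJ]
  have htake : ∀ i < τ.length, τ.take i = pre t0 i := by
    intro i hi
    have h2 : pre t0 τ.length = τ := by
      have h3 := (hb τ.length).1.2
      rcases h3 with h4 | h4
      · exact h4.eq_of_length (by simp)
      · exact (h4.eq_of_length (by simp)).symm
    rw [← h2, take_pre t0 hi.le]
  have hCC : CC T τ = ∏ i ∈ Finset.range τ.length, ((suc T (pre t0 i)).card : ℝ≥0∞) * jj i := by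
    unfold CC
    refine Finset.prod_congr rfl fun i hi => ?_
    rw [htake i (Finset.mem_range.1 hi)]
  have hcard : ∀ i, ((suc T (pre t0 i)).card : ℝ≥0∞) ≠ 0 := by
    intro i
    have := Finset.card_pos.2 (hT.ext _ (hmem i))
    exact_mod_cast this.ne'
  rw [hCC, ← Finset.prod_mul_distrib, ← Finset.prod_mul_distrib,
    ← Finset.prod_range_mul_prod_Ico _ hM]
  unfold FM
  have e1 : (∏ i ∈ Finset.range τ.length, ((suc T (pre t0 i)).card : ℝ≥0∞) * jj i) *
      ∏ i ∈ Finset.range τ.length, (((suc T (pre t0 i)).card : ℝ≥0∞)⁻¹ * (jj i)⁻¹) = 1 := by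
    rw [← Finset.prod_mul_distrib]
    apply Finset.prod_eq_one
    intro i _
    calc _ = (((suc T (pre t0 i)).card : ℝ≥0∞) * ((suc T (pre t0 i)).card : ℝ≥0∞)⁻¹) *
          (jj i * (jj i)⁻¹) := by ring
      _ = 1 := by
        rw [ENNReal.mul_inv_cancel (hcard i) (ENNReal.natCast_ne_top _),
          ENNReal.mul_inv_cancel (jj_ne_zero hR1 i) (jj_ne_top i), one_mul]
  have e2 : (∏ i ∈ Finset.Ico τ.length M, gi T x0 (pre t0 i)) *
      ∏ i ∈ Finset.Ico τ.length M, (((suc T (pre t0 i)).card : ℝ≥0∞)⁻¹ * (jj i)⁻¹) =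
      ∏ i ∈ Finset.Ico τ.length M, ((bs i : ℝ≥0∞)⁻¹ *
        (Nx i (suc T (pre t0 i)) (x0 i).val : ℝ≥0∞)⁻¹) := by
    rw [← Finset.prod_mul_distrib]
    refine Finset.prod_congr rfl fun i hi => ?_
    rw [Finset.mem_Ico] at hi
    have h2 := hal i hi.1 hi.2
    unfold gi
    rw [if_pos h2, length_pre]
    have h3 : Nx i (suc T (pre t0 i)) (x0 i).val ≠ 0 := by
      rw [aliveAt_iff, length_pre] at h2
      have := Finset.card_pos.2 (hT.ext _ (hmem i))
      omega
    have h4 : (bs i : ℝ≥0∞)⁻¹ = 2⁻¹ * (jj i)⁻¹ := by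
      rw [← two_jj hR1 i, ENNReal.mul_inv (by simp) (by simp)]
    rw [h4, ENNReal.div_eq_inv_mul, ENNReal.mul_inv (by simp) (by simp)]
    calc _ = (((suc T (pre t0 i)).card : ℝ≥0∞) * ((suc T (pre t0 i)).card : ℝ≥0∞)⁻¹) *
          (2⁻¹ * (jj i)⁻¹ * (Nx i (suc T (pre t0 i)) (x0 i).val : ℝ≥0∞)⁻¹) := by ring
      _ = _ := by
        rw [ENNReal.mul_inv_cancel (hcard i) (ENNReal.natCast_ne_top _), one_mul]
  calc _ = ((∏ i ∈ Finset.range τ.length, ((suc T (pre t0 i)).card : ℝ≥0∞) * jj i) *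
      ∏ i ∈ Finset.range τ.length, (((suc T (pre t0 i)).card : ℝ≥0∞)⁻¹ * (jj i)⁻¹)) *
      ((∏ i ∈ Finset.Ico τ.length M, gi T x0 (pre t0 i)) *
      ∏ i ∈ Finset.Ico τ.length M, (((suc T (pre t0 i)).card : ℝ≥0∞)⁻¹ * (jj i)⁻¹)) := by
        rw [e1, e2, one_mul]
    _ = _ := by ring

end Pool.Agent.FL.H10
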