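import Pool.Agent.Helper10_FL.Common

/-!
# Module R4 of the forcing library: positive probability of staying alive
-/

open MeasureTheory Set Filter Topology

open scoped ENNReal

namespace Pool.Agent.FL.H10

theorem sub_subset (T : Set Node) (τ : Node) : sub T τ ⊆ T := fun _ h => h.1

theorem branch_mem (h1 : PhiStmt) (hR2 : R2Stmt) {T : Set Node} (hT : Good T) {τ : Node}
    (hτ : τ ∈ T) (x : Dg) (w : Rd) (m : ℕ) : pre (phi (hatT T τ x) w) m ∈ T := by
  have h := h1.2.1 _ (hR2.1 T τ x hT hτ).1 w m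
  exact ((hR2.1 T τ x hT hτ).2 h).1

/-- The error bound at one level. -/
noncomputable def bnd (m : ℕ) : ℝ := 18 / ((m : ℝ) + 2) ^ 2 + 72 * (1 / 2) ^ m

theorem summable_bnd : Summable bnd := by
  unfold bnd
  apply Summable.add
  · have h : Summable (fun m : ℕ => 1 / ((m : ℝ) + 2) ^ 2) := by
      have h2 : Summable (fun m : ℕ => 1 / ((m : ℝ)) ^ 2) :=
        Real.summable_one_div_nat_pow.2 (by norm_num)
      have h3 := (summable_nat_add_iff (f := fun m : ℕ => 1 / ((m : ℝ)) ^ 2) 2).2 h2
      refine h3.congr fun m => ?_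
      push_cast
      rfl
    refine (h.mul_left 18).congr fun m => ?_
    ring
  · exact (summable_geometric_of_lt_one (by norm_num) (by norm_num)).mul_left 72

theorem bnd_nonneg (m : ℕ) : 0 ≤ bnd m := by unfold bnd; positivity

theorem level_bound (hR1 : R1Stmt) (T : Set Node) (m : ℕ) (σ : Node) (hσ : σ.length = m)
    (hcard : (m + 2) ^ 2 ≤ (suc T σ).card) (x : Dg) :
    unifM (bs m) {a | ¬ aliveAt T (Function.update x m a) σ} ≤ ENNReal.ofReal (bnd m) := by
  subst hσ
  have h0 : 0 < (suc T σ).card := lt_of_lt_of_le (by positivity) hcard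
  have h1 := prob_bad hR1 T σ h0
  have h2 : {a : Fin (bs σ.length) | ¬ aliveAt T (Function.update x σ.length a) σ} =
      {a | ¬ (suc T σ).card ≤ 3 * Nx σ.length (suc T σ) a.val} := by
    ext a
    simp only [Set.mem_ofPred_eq]
    rw [aliveAt_iff, Function.update_self]
  rw [h2]
  refine h1.trans (ENNReal.ofReal_le_ofReal ?_)
  unfold bnd
  have h3 : ((σ.length : ℝ) + 2) ^ 2 ≤ ((suc T σ).card : ℝ) := by exact_mod_cast hcard
  have h4 : 18 / ((suc T σ).card : ℝ) ≤ 18 / ((σ.length : ℝ) + 2) ^ 2 :=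
    div_le_div_of_nonneg_left (by norm_num) (by positivity) h3
  linarith

theorem level_w (h1 : PhiStmt) (hR1 : R1Stmt) (hR2 : R2Stmt) {T : Set Node} (hT : Good T)
    {τ : Node} (hτ : τ ∈ T) (m : ℕ) (hm : ∀ σ ∈ T, σ.length = m → (m + 2) ^ 2 ≤ (suc T σ).card)
    (w : Rd) :
    mL {x | ¬ aliveAt T x (pre (phi (hatT T τ x) w) m)} ≤ ENNReal.ofReal (bnd m) := by
  have hmeas : MeasurableSet {x : Dg | ¬ aliveAt T x (pre (phi (hatT T τ x) w) m)} := by
    have h2 := (measurableSet_aliveNode h1 hR2 T τ m).compl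
    exact measurable_prodMk_right (y := w) h2
  set B : Set Dg := {x : Dg | ¬ aliveAt T x (pre (phi (hatT T τ x) w) m)} with hB
  rw [← lintegral_indicator_one hmeas]
  unfold mL
  rw [lintegral_update (fun m => unifM (bs m)) m _ (measurable_one.indicator hmeas)]
  have key : ∀ x : Dg, ∫⁻ a, B.indicator (1 : Dg → ℝ≥0∞) (Function.update x m a)
      ∂(unifM (bs m)) ≤ ENNReal.ofReal (bnd m) := by
    intro x
    set σ := pre (phi (hatT T τ x) w) m with hσ
    have h3 : ∀ a : Fin (bs m), B.indicator (1 : Dg → ℝ≥0∞) (Function.update x m a) =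
        ({a | ¬ aliveAt T (Function.update x m a) σ} : Set (Fin (bs m))).indicator 1 a := by
      intro a
      have h4 : pre (phi (hatT T τ (Function.update x m a)) w) m = σ := by
        apply pre_phi_hatT_congr h1 hR2 hT hτ
        intro i hi
        rw [Function.update_of_ne hi.ne]
      have h5 : Function.update x m a ∈ B ↔ ¬ aliveAt T (Function.update x m a) σ := by
        rw [hB, Set.mem_ofPred_eq, h4]
      by_cases h6 : aliveAt T (Function.update x m a) σ
      · have h7 : a ∉ ({a | ¬ aliveAt T (Function.update x m a) σ} : Set (Fin (bs m))) :=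
          fun h => h h6
        rw [Set.indicator_of_notMem (fun h => h5.1 h h6), Set.indicator_of_notMem h7]
      · rw [Set.indicator_of_mem (h5.2 h6), Set.indicator_of_mem (by exact h6)]
        rfl
    simp only [h3]
    rw [lintegral_indicator_one (Set.toFinite _).measurableSet]
    apply level_bound hR1 T m σ (by simp [hσ])
    exact hm σ (branch_mem h1 hR2 hT hτ x w m) (by simp [hσ])
  calc _ ≤ ∫⁻ _x, ENNReal.ofReal (bnd m) ∂(Measure.infinitePi fun m => unifM (bs m)) :=
        lintegral_mono key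
    _ = _ := by simp

theorem notalive_bound (h1 : PhiStmt) (hP : ProdStmt) (hR1 : R1Stmt) (hR2 : R2Stmt)
    {T : Set Node} (hT : Good T) {τ : Node} (hτ : τ ∈ T) (hN : NormGE T τ.length 2) :
    mL {x | mU {w | alive T τ.length x (phi (hatT T τ x) w)} = 0} ≤
      ∑' k, ENNReal.ofReal (bnd (k + τ.length)) := by
  have := hP.1
  set n := τ.length with hn
  set G : Dg → ℝ≥0∞ := fun x => ∑' k, mU {w | ¬ aliveAt T x (pre (phi (hatT T τ x) w) (k + n))}
    with hG
  have hmeasG1 : ∀ k, Measurable fun x : Dg =>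
      mU {w | ¬ aliveAt T x (pre (phi (hatT T τ x) w) (k + n))} := by
    intro k
    have h2 := (measurableSet_aliveNode h1 hR2 T τ (k + n)).compl
    exact measurable_measure_prodMk_left h2
  have hmeasG : Measurable G := Measurable.tsum hmeasG1
  have hint : ∫⁻ x, G x ∂mL ≤ ∑' k, ENNReal.ofReal (bnd (k + n)) := by
    rw [hG, lintegral_tsum (fun k => (hmeasG1 k).aemeasurable)]
    refine ENNReal.tsum_le_tsum fun k => ?_
    have h2 := (measurableSet_aliveNode h1 hR2 T τ (k + n)).compl
    have h3 : ∫⁻ x, mU {w | ¬ aliveAt T x (pre (phi (hatT T τ x) w) (k + n))} ∂mL =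
        (mL.prod mU) {z : Dg × Rd | aliveAt T z.1 (pre (phi (hatT T τ z.1) z.2) (k + n))}ᶜ := by
      rw [Measure.prod_apply h2]
      rfl
    rw [h3, Measure.prod_apply_symm h2]
    calc _ ≤ ∫⁻ _w, ENNReal.ofReal (bnd (k + n)) ∂mU := by
          refine lintegral_mono fun w => ?_
          exact level_w h1 hR1 hR2 hT hτ (k + n) (fun σ hσ hl => by
            have := hN σ hσ (by omega)
            rwa [hl] at this) w
      _ = _ := by simp
  refine le_trans ?_ hint
  have h5 : {x | mU {w | alive T n x (phi (hatT T τ x) w)} = 0} ⊆ {x | 1 ≤ G x} := by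
    intro x hx
    simp only [Set.mem_ofPred_eq] at hx ⊢
    have h6 : (1 : ℝ≥0∞) = mU Set.univ := by rw [measure_univ]
    rw [h6]
    have h7 : (Set.univ : Set Rd) ⊆ {w | alive T n x (phi (hatT T τ x) w)} ∪
        ⋃ k, {w | ¬ aliveAt T x (pre (phi (hatT T τ x) w) (k + n))} := by
      intro w _
      by_cases h8 : alive T n x (phi (hatT T τ x) w)
      · exact Or.inl h8
      · right
        unfold alive at h8
        push Not at h8
        obtain ⟨m, hm, h9⟩ := h8
        rw [Set.mem_iUnion]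
        refine ⟨m - n, ?_⟩
        simp only [Set.mem_ofPred_eq]
        rwa [Nat.sub_add_cancel hm]
    refine (measure_mono h7).trans ((measure_union_le _ _).trans ?_)
    rw [hx, zero_add]
    exact measure_iUnion_le _
  refine (measure_mono h5).trans ?_
  have h6 := mul_meas_ge_le_lintegral (μ := mL) hmeasG 1
  rwa [one_mul] at h6

theorem r4 (h1 : PhiStmt) (hP : ProdStmt) (hR1 : R1Stmt) (hR2 : R2Stmt) : R4Stmt := by
  intro T hT
  obtain ⟨n0, hn0⟩ := hT.norm 2
  obtain ⟨t0, ht0⟩ := hT.body_nonempty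
  have hN : ∀ n, n0 ≤ n → NormGE T (pre t0 n).length 2 := by
    intro n hn σ hσ h2
    rw [length_pre] at h2
    exact hn0 σ hσ (hn.trans h2)
  rw [ae_iff]
  set D : Set Dg := {x | ¬ ∃ τ ∈ T, NormGE T τ.length 2 ∧
    mU {w | alive T τ.length x (phi (hatT T τ x) w)} ≠ 0} with hD
  have hle : ∀ n, n0 ≤ n → mL D ≤ ∑' k, ENNReal.ofReal (bnd (k + n)) := by
    intro n hn
    have h2 := notalive_bound h1 hP hR1 hR2 hT (ht0 n) (hN n hn)
    rw [length_pre] at h2
    refine le_trans (measure_mono ?_) h2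
    intro x hx
    by_contra h3
    apply hx
    refine ⟨pre t0 n, ht0 n, hN n hn, ?_⟩
    rw [length_pre]
    exact h3
  have hfin : ∑' k, ENNReal.ofReal (bnd k) ≠ ∞ := by
    rw [← ENNReal.ofReal_tsum_of_nonneg bnd_nonneg summable_bnd]
    exact ENNReal.ofReal_ne_top
  have hlim := ENNReal.tendsto_sum_nat_add _ hfin
  have h3 : mL D ≤ 0 := by
    apply ge_of_tendsto hlim
    filter_upwards [eventually_ge_atTop n0] with n hn
    exact hle n hn
  exact le_antisymm h3 bot_le

end Pool.Agent.FL.H10
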